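import Pool.Agent.Lib.MP_b6786a_co.Zeil.Final

/-!
# Left Gog trapezoids and left GOGAm trapezoids are equinumerous

For all `1 ≤ k ≤ n` the number of `(n,k)` left Gog trapezoids equals the number of `(n,k)` left
GOGAm trapezoids (question Q1, answered affirmatively, with no unproved input).

The proof goes through the right Gog and the right Magog trapezoids: a bijection between left
GOGAm and right Magog trapezoids (new), the symmetry exchanging left and right Gog trapezoids, and
Zeilberger's theorem that right Gog and right Magog trapezoids are equinumerous, of which a
complete proof by residues is included.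
-/

set_option autoImplicit false

open Pool.Agent.Lib.MP_b6786a_co

namespace Pool.Agent.Results.MP_b6786a_co.LeftGogEqLeftGOGAm

/-- For all `1 ≤ k ≤ n`, the `(n,k)` left Gog trapezoids and the `(n,k)` left GOGAm trapezoids form
finite sets with the same number of elements. -/
theorem result (n k : ℕ) (hk1 : 1 ≤ k) (hkn : k ≤ n) :
    (trapezoids (IsGog n) (leftIdx n k)).Finite ∧
      (trapezoids (IsGOGAm n) (leftIdx n k)).Finite ∧
      (trapezoids (IsGog n) (leftIdx n k)).ncard =
        (trapezoids (IsGOGAm n) (leftIdx n k)).ncard :=
  Zeil.left_gog_eq_left_gogam n k hk1 hkn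

end Pool.Agent.Results.MP_b6786a_co.LeftGogEqLeftGOGAm
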